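import Pool.Agent.X296.Koc.Ext

/-!
# The closure of the rational points of Kummer surfaces and of their higher dimensional analogues is
open outside countably many curves (divisors)

`K` is a number field, `f₁, …, f_n ∈ K[X]` are separable polynomials of degree three or four and
`A ∈ K*`. The variety `X : w² = A f₁(z₁) ⋯ f_n(z_n)` is a twisted Kummer surface for `n = 2` (its
smooth projective model is the minimal resolution of the quotient of `C₁ × C₂` by `(-1, -1)`, where
`Cᵢ` is the curve of genus one `y² = f_i(x)`, twisted by `A`); for `n ≥ 3` it has a crepant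
resolution which is a Calabi-Yau variety of Borcea-Voisin type.

If `X` is a K3 surface then `Br X / Br K` is finite, and the conjecture of Skorobogatov implies that
for every finite set of places the closure of `X(K)` in the product of the `X(K_v)` is open. For
Kummer surfaces this is known only under the assumption that certain Tate-Shafarevich groups are
finite. We consider finite nonempty sets of `p`-adic places of degree one (embeddings of `K` into
`ℚ_p`) over different primes `p`, with or without a real place; for `K = ℚ` these are all the finite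
sets of places which contain a finite place.

**Theorem.** For each `i` there are countably many nonzero polynomials `N_{i,k} ∈ K[X]`, such that
for every finite extension `L` of `K` there are finite sets `T_i ⊂ L` such that the `N_{i,k}` have
no zeros in `L ∖ T_i`, and such that the following holds for all `A ∈ L*` and for every such set of
places of `L`. The closure of `X(L)` in the product of the `X(L_v)` is a neighbourhood of each of
its points `(P_v)` with `w(P_v) ≠ 0` for all `v` and `N_{i,k}(z_i(P_v)) ≠ 0` for all `i`, `k` and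
all `p`-adic `v`. In particular it is a neighbourhood of each `L`-rational point with `w ≠ 0` and
`z_i ∉ T_i` for all `i`.

Idea of the proof. The fibre of `X` through `P_v` in the direction of `z_i` is a curve of genus one
`w² = c f_i(z)`, a twist of `C_i`, and the difference of the two points over `z` is a point of its
Jacobian. If it has infinite order at all `p`-adic `v`, its multiples accumulate at the origin, and
the same multiples of the corresponding points for the rational curves close to the given ones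
generate neighbourhoods of the origin of a size which does not depend on the curve. So one can move
from the rational points near `(P_v)` in the direction of `z_i`, and then in the other directions.
The order of the difference does not depend on the twist, but only on `z`, so that it is finite only
if `N_{i,k}(z) = 0` for some `k`. Here `N_{i,k}` is the numerator of the `(k + 1)`-st multiple of the
universal point on the twist of `C_i` by `f_i(z)`, and `T_i` is finite by the theorem of Northcott,
because the height of the difference grows like that of `z`.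
-/

set_option autoImplicit false

namespace Pool.Agent.Results.MP_ed3816_nt.KummerOpenClosure

open Pool.Agent.Y720.MZ Pool.Agent.X296.Koc Polynomial

/-- The point `(z, w)` lies on `w² = A f₁(z₁) ⋯ f_n(z_n)`. -/
def OnCover {F : Type} [Field F] {n : ℕ} (A : F) (f : Fin n → F[X]) (P : (Fin n → F) × F) :
    Prop :=
  P.2 ^ 2 = A * ∏ j, (f j).eval (P.1 j)

/-- The image of a point under an embedding of fields. -/
def image {K F : Type} [Field K] [Field F] (φ : K →+* F) {n : ℕ} (P : (Fin n → K) × K) :
    (Fin n → F) × F :=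
  (fun j => φ (P.1 j), φ P.2)

/-- The closure of the `K`-points in the product of the sets of the `ℚ_[p i]`-points. -/
def Closure {K : Type} [Field K] {n : ℕ} (A : K) (f : Fin n → K[X]) {ι : Type} {p : ι → ℕ}
    [∀ i, Fact (p i).Prime] (σ : ∀ i, K →+* ℚ_[p i]) : Set (∀ i, (Fin n → ℚ_[p i]) × ℚ_[p i]) :=
  closure {S | ∃ P, OnCover A f P ∧ S = fun i => image (σ i) P}

/-- The closure of the `K`-points in the product of the set of the real points and of the sets of
the `ℚ_[p i]`-points. -/
def ClosureReal {K : Type} [Field K] {n : ℕ} (A : K) (f : Fin n → K[X]) {ι : Type} {p : ι → ℕ}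
    [∀ i, Fact (p i).Prime] (σ : ∀ i, K →+* ℚ_[p i]) (τ : K →+* ℝ) :
    Set (((Fin n → ℝ) × ℝ) × ∀ i, (Fin n → ℚ_[p i]) × ℚ_[p i]) :=
  closure {S | ∃ P, OnCover A f P ∧ S = (image τ P, fun i => image (σ i) P)}

section aux

variable {K : Type} [Field K] {n : ℕ} {A : K} {f : Fin n → K[X]}

lemma onX_map {F : Type} [Field F] (φ : K →+* F) (P : (Fin n → F) × F) :
    OnCover (φ A) (fun j => (f j).map φ) P ↔
      onX (MvPolynomial.map φ (FP A f)) P.1 P.2 :=
  (onX_iff φ A f P.1 P.2).symm

lemma onX_self (P : (Fin n → K) × K) : OnCover A f P ↔ onX (FP A f) P.1 P.2 := by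
  unfold onX OnCover
  rw [FP_eval]

lemma dist_image {F : Type} [NormedField F] (φ : K →+* F) (P : (Fin n → K) × K)
    (T : (Fin n → F) × F) {η : ℝ} (hη : 0 < η) : dist T (image φ P) < η ↔
      (∀ j, ‖φ (P.1 j) - T.1 j‖ < η) ∧ ‖φ P.2 - T.2‖ < η := by
  rw [dist_comm, Prod.dist_eq, max_lt_iff, dist_pi_lt_iff hη]
  simp only [dist_eq_norm, image]

lemma onCover_image {F : Type} [Field F] (φ : K →+* F) {P : (Fin n → K) × K}
    (h : OnCover A f P) : OnCover (φ A) (fun j => (f j).map φ) (image φ P) := by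
  unfold OnCover at *
  simp only [image]
  rw [← map_pow, h, map_mul, map_prod]
  simp only [eval_map_apply]

lemma isClosed_onCover {F : Type} [NormedField F] (A : F) (f : Fin n → F[X]) :
    IsClosed {P : (Fin n → F) × F | OnCover A f P} :=
  isClosed_eq (by fun_prop) (by fun_prop)

variable {ι : Type} {p : ι → ℕ} [hp : ∀ i, Fact (p i).Prime]

lemma on_of_closure {σ : ∀ i, K →+* ℚ_[p i]} {T : ∀ i, (Fin n → ℚ_[p i]) × ℚ_[p i]}
    (hT : T ∈ Closure A f σ) (i : ι) : OnCover (σ i A) (fun j => (f j).map (σ i)) (T i) := by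
  have h1 : IsClosed {T : ∀ i, (Fin n → ℚ_[p i]) × ℚ_[p i] |
      OnCover (σ i A) (fun j => (f j).map (σ i)) (T i)} :=
    (isClosed_onCover (σ i A) fun j => (f j).map (σ i)).preimage
      (f := fun T : ∀ i, (Fin n → ℚ_[p i]) × ℚ_[p i] => T i) (continuous_apply i)
  refine closure_minimal ?_ h1 hT
  rintro _ ⟨P, hP, rfl⟩
  exact onCover_image (σ i) hP

lemma on_of_closureR {σ : ∀ i, K →+* ℚ_[p i]} {τ : K →+* ℝ}
    {T : ((Fin n → ℝ) × ℝ) × ∀ i, (Fin n → ℚ_[p i]) × ℚ_[p i]}
    (hT : T ∈ ClosureReal A f σ τ) : OnCover (τ A) (fun j => (f j).map τ) T.1 ∧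
      ∀ i, OnCover (σ i A) (fun j => (f j).map (σ i)) (T.2 i) := by
  constructor
  · have h1 : IsClosed {T : ((Fin n → ℝ) × ℝ) × ∀ i, (Fin n → ℚ_[p i]) × ℚ_[p i] |
        OnCover (τ A) (fun j => (f j).map τ) T.1} :=
      (isClosed_onCover (τ A) fun j => (f j).map τ).preimage continuous_fst
    refine closure_minimal ?_ h1 hT
    rintro _ ⟨P, hP, rfl⟩
    exact onCover_image τ hP
  · intro i
    have h1 : IsClosed {T : ((Fin n → ℝ) × ℝ) × ∀ i, (Fin n → ℚ_[p i]) × ℚ_[p i] |
        OnCover (σ i A) (fun j => (f j).map (σ i)) (T.2 i)} :=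
      (isClosed_onCover (σ i A) fun j => (f j).map (σ i)).preimage
        (f := fun T : ((Fin n → ℝ) × ℝ) × ∀ i, (Fin n → ℚ_[p i]) × ℚ_[p i] => T.2 i)
        ((continuous_apply i).comp continuous_snd)
    refine closure_minimal ?_ h1 hT
    rintro _ ⟨P, hP, rfl⟩
    exact onCover_image (σ i) hP

lemma fill_p [Finite ι] (σ : ∀ i, K →+* ℚ_[p i]) {T : ∀ i, (Fin n → ℚ_[p i]) × ℚ_[p i]}
    (hcl : T ∈ Closure A f σ) (hI : IntL σ (FP A f) (fun i => (T i).1) (fun i => (T i).2)) :
    ∃ U ∈ nhds T, ∀ S ∈ U, (∀ i, OnCover (σ i A) (fun j => (f j).map (σ i)) (S i)) →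
      S ∈ Closure A f σ := by
  have : Fintype ι := Fintype.ofFinite ι
  obtain ⟨ε, hε, hint⟩ := hI
  obtain ⟨_, ⟨P, hP, rfl⟩, h2⟩ := Metric.mem_closure_iff.1 hcl ε hε
  rw [dist_pi_lt_iff hε] at h2
  refine ⟨Metric.ball T ε, Metric.ball_mem_nhds T hε, fun S hS hSX => ?_⟩
  rw [Metric.mem_ball, dist_pi_lt_iff hε] at hS
  rw [Closure, Metric.mem_closure_iff]
  intro η hη
  obtain ⟨z, w, k1, k2⟩ := hint P.1 P.2 ((onX_self P).1 hP)
    (fun i => (dist_image (σ i) P (T i) hε).1 (h2 i))
    (fun i => (S i).1) (fun i => (S i).2) (fun i => (onX_map (σ i) (S i)).1 (hSX i)) (fun i => by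
      have h3 := hS i
      rw [Prod.dist_eq, max_lt_iff, dist_pi_lt_iff hε] at h3
      simp only [dist_eq_norm] at h3
      exact h3) η hη
  refine ⟨_, ⟨(z, w), (onX_self (z, w)).2 k1, rfl⟩, ?_⟩
  rw [dist_pi_lt_iff hη]
  exact fun i => (dist_image (σ i) (z, w) (S i) hη).2 (k2 i)

lemma fill_r [Finite ι] (σ : ∀ i, K →+* ℚ_[p i]) (τ : K →+* ℝ)
    {T : ((Fin n → ℝ) × ℝ) × ∀ i, (Fin n → ℚ_[p i]) × ℚ_[p i]}
    (hcl : T ∈ ClosureReal A f σ τ)
    {x : ∀ v : Option ι, Fin n → Lv p v} {y : ∀ v : Option ι, Lv p v}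
    (hx0 : x none = T.1.1) (hy0 : y none = T.1.2) (hx : ∀ i, x (some i) = (T.2 i).1)
    (hy : ∀ i, y (some i) = (T.2 i).2)
    (hI : IntL (sv σ τ) (FP A f) x y) :
    ∃ U ∈ nhds T, ∀ S ∈ U, OnCover (τ A) (fun j => (f j).map τ) S.1 →
      (∀ i, OnCover (σ i A) (fun j => (f j).map (σ i)) (S.2 i)) → S ∈ ClosureReal A f σ τ := by
  have : Fintype ι := Fintype.ofFinite ι
  obtain ⟨ε, hε, hint⟩ := hI
  obtain ⟨_, ⟨P, hP, rfl⟩, h2⟩ := Metric.mem_closure_iff.1 hcl ε hε
  rw [Prod.dist_eq, max_lt_iff, dist_pi_lt_iff hε] at h2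
  refine ⟨Metric.ball T ε, Metric.ball_mem_nhds T hε, fun S hS hSr hSX => ?_⟩
  rw [Metric.mem_ball, Prod.dist_eq, max_lt_iff, dist_pi_lt_iff hε] at hS
  rw [ClosureReal, Metric.mem_closure_iff]
  intro η hη
  let x' : ∀ v : Option ι, Fin n → Lv p v := fun v =>
    match v with
    | none => S.1.1
    | some i => (S.2 i).1
  let y' : ∀ v : Option ι, Lv p v := fun v =>
    match v with
    | none => S.1.2
    | some i => (S.2 i).2
  obtain ⟨z, w, k1, k2⟩ := hint P.1 P.2 ((onX_self P).1 hP)
    (by
      rintro (_ | i)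
      · rw [hx0, hy0]
        exact (dist_image τ P T.1 hε).1 h2.1
      · rw [hx, hy]
        exact (dist_image (σ i) P (T.2 i) hε).1 (h2.2 i))
    x' y'
    (by
      rintro (_ | i)
      · exact (onX_map τ S.1).1 hSr
      · exact (onX_map (σ i) (S.2 i)).1 (hSX i))
    (by
      rintro (_ | i)
      · have h3 := hS.1
        rw [Prod.dist_eq, max_lt_iff, dist_pi_lt_iff hε] at h3
        simp only [dist_eq_norm] at h3
        rw [hx0, hy0]
        exact h3
      · have h3 := hS.2 i
        rw [Prod.dist_eq, max_lt_iff, dist_pi_lt_iff hε] at h3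
        simp only [dist_eq_norm] at h3
        rw [hx, hy]
        exact h3) η hη
  refine ⟨_, ⟨(z, w), (onX_self (z, w)).2 k1, rfl⟩, ?_⟩
  rw [Prod.dist_eq, max_lt_iff, dist_pi_lt_iff hη]
  exact ⟨(dist_image τ (z, w) S.1 hη).2 (k2 none),
    fun i => (dist_image (σ i) (z, w) (S.2 i) hη).2 (k2 (some i))⟩

end aux

/-- **The closure of the rational points of `w² = A f₁(z₁) ⋯ f_n(z_n)` is open outside countably
many divisors, which do not depend on `A` and on the field.** -/
theorem result :
    ∀ (K : Type) [Field K] [NumberField K] (n : ℕ) (f : Fin n → K[X]),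
      -- the `f_i` are separable of degree three or four
      (∀ i, (f i).Separable ∧ 3 ≤ (f i).natDegree ∧ (f i).natDegree ≤ 4) →
      -- there are nonzero polynomials `N_{i,k}`
      ∃ N : Fin n → ℕ → K[X], (∀ i k, N i k ≠ 0) ∧
        -- such that for all extensions `L` of `K` which are number fields
        ∀ (L : Type) [Field L] [NumberField L] (φ : K →+* L),
        -- there are finite sets `T_i ⊂ L` such that the `N_{i,k}` have no zeros in `L ∖ T_i`,
        ∃ T : Fin n → Set L,
        (∀ i, (T i).Finite) ∧ (∀ i k, ∀ t ∉ T i, ((N i k).map φ).eval t ≠ 0) ∧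
        -- and for all `A ∈ L*` and all finite nonempty sets of `p`-adic places of `L`
        ∀ A : L, A ≠ 0 →
        ∀ (ι : Type) [Finite ι] [Nonempty ι] (p : ι → ℕ) [∀ i, Fact (p i).Prime],
          Function.Injective p → ∀ σ : ∀ i, L →+* ℚ_[p i],
            -- the closure of the `L`-rational points is a neighbourhood of its points outside
            -- the divisors `w = 0` and `N_{i,k}(z_i) = 0`
            (∀ P ∈ Closure A (fun j => (f j).map φ) σ, (∀ i, (P i).2 ≠ 0) →
              (∀ i j k, ((N j k).map ((σ i).comp φ)).eval ((P i).1 j) ≠ 0) →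
              ∃ U ∈ nhds P, ∀ S ∈ U,
                (∀ i, OnCover (σ i A) (fun j => (f j).map ((σ i).comp φ)) (S i)) →
                S ∈ Closure A (fun j => (f j).map φ) σ) ∧
            -- in particular it is a neighbourhood of the `L`-rational points with `w ≠ 0` and
            -- `z_i ∉ T_i`
            (∀ P, OnCover A (fun j => (f j).map φ) P → P.2 ≠ 0 → (∀ j, P.1 j ∉ T j) →
              ∃ U ∈ nhds (fun i => image (σ i) P : ∀ i, (Fin n → ℚ_[p i]) × ℚ_[p i]),
                ∀ S ∈ U, (∀ i, OnCover (σ i A) (fun j => (f j).map ((σ i).comp φ)) (S i)) →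
                  S ∈ Closure A (fun j => (f j).map φ) σ) ∧
            -- and the same with a real place
            ∀ τ : L →+* ℝ,
              (∀ P ∈ ClosureReal A (fun j => (f j).map φ) σ τ, P.1.2 ≠ 0 →
                (∀ i, (P.2 i).2 ≠ 0) →
                (∀ i j k, ((N j k).map ((σ i).comp φ)).eval ((P.2 i).1 j) ≠ 0) →
                ∃ U ∈ nhds P, ∀ S ∈ U, OnCover (τ A) (fun j => (f j).map (τ.comp φ)) S.1 →
                  (∀ i, OnCover (σ i A) (fun j => (f j).map ((σ i).comp φ)) (S.2 i)) →
                    S ∈ ClosureReal A (fun j => (f j).map φ) σ τ) ∧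
              (∀ P, OnCover A (fun j => (f j).map φ) P → P.2 ≠ 0 → (∀ j, P.1 j ∉ T j) →
                ∃ U ∈ nhds ((image τ P, fun i => image (σ i) P) :
                    ((Fin n → ℝ) × ℝ) × ∀ i, (Fin n → ℚ_[p i]) × ℚ_[p i]),
                  ∀ S ∈ U, OnCover (τ A) (fun j => (f j).map (τ.comp φ)) S.1 →
                    (∀ i, OnCover (σ i A) (fun j => (f j).map ((σ i).comp φ)) (S.2 i)) →
                      S ∈ ClosureReal A (fun j => (f j).map φ) σ τ) := by
  intro K _ _ n f hf
  obtain ⟨N, hN1, hN2, hN⟩ := exists_N_ext (fun i => (hf i).1) (fun i => (hf i).2)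
  refine ⟨N, hN1, ?_⟩
  intro L _ _ φ
  obtain ⟨T, hT, hTN⟩ := hN2 L φ
  refine ⟨T, hT, hTN, ?_⟩
  intro A hA ι _ _ p _ hinj σ
  simp only [← Polynomial.map_map]
  have hN' : ∀ (F : Type) [Field F] [CharZero F] (ψ : L →+* F) (i : Fin n) (t w c : F), w ≠ 0 →
      w ^ 2 = c * (((f i).map φ).map ψ).eval t → (∀ k, (((N i k).map φ).map ψ).eval t ≠ 0) →
      IOt (w, fun j => c * tq (((f i).map φ).map ψ) t j) := by
    intro F _ _ ψ i t w c hw h1 h2
    rw [Polynomial.map_map] at h1 ⊢
    simp only [Polynomial.map_map] at h2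
    exact hN F (ψ.comp φ) i t w c hw h1 h2
  have hs : ∀ i, ((f i).map φ).Separable := fun i => (hf i).1.map
  have hd' : ∀ i, 3 ≤ ((f i).map φ).natDegree ∧ ((f i).map φ).natDegree ≤ 4 := fun i => by
    rw [natDegree_map]; exact (hf i).2
  have hd : ∀ i, ((f i).map φ).natDegree ≤ 4 := fun i => (hd' i).2
  have main : ∀ P ∈ Closure A (fun j => (f j).map φ) σ, (∀ i, (P i).2 ≠ 0) →
      (∀ i j k, (((N j k).map φ).map (σ i)).eval ((P i).1 j) ≠ 0) →
      ∃ U ∈ nhds P, ∀ S ∈ U,
        (∀ i, OnCover (σ i A) (fun j => ((f j).map φ).map (σ i)) (S i)) →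
        S ∈ Closure A (fun j => (f j).map φ) σ := by
    intro P hP hw h
    exact fill_p σ hP (int_p hinj σ hd hN'
      (fun i => (onX_map (σ i) (P i)).1 (on_of_closure hP i)) hw h)
  have mainR : ∀ τ : L →+* ℝ, ∀ P ∈ ClosureReal A (fun j => (f j).map φ) σ τ, P.1.2 ≠ 0 →
      (∀ i, (P.2 i).2 ≠ 0) →
      (∀ i j k, (((N j k).map φ).map (σ i)).eval ((P.2 i).1 j) ≠ 0) →
      ∃ U ∈ nhds P, ∀ S ∈ U, OnCover (τ A) (fun j => ((f j).map φ).map τ) S.1 →
        (∀ i, OnCover (σ i A) (fun j => ((f j).map φ).map (σ i)) (S.2 i)) →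
        S ∈ ClosureReal A (fun j => (f j).map φ) σ τ := by
    intro τ P hP hw0 hw h
    obtain ⟨hon1, hon2⟩ := on_of_closureR hP
    let x : ∀ v : Option ι, Fin n → Lv p v := fun v =>
      match v with
      | none => P.1.1
      | some i => (P.2 i).1
    let y : ∀ v : Option ι, Lv p v := fun v =>
      match v with
      | none => P.1.2
      | some i => (P.2 i).2
    refine fill_r σ τ hP (x := x) (y := y) rfl rfl (fun _ => rfl) (fun _ => rfl) ?_
    refine int_r hinj σ τ hs hd' hN' ?_ ?_ ?_
    · rintro (_ | i)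
      · exact (onX_map τ P.1).1 hon1
      · exact (onX_map (σ i) (P.2 i)).1 (hon2 i)
    · rintro (_ | i)
      · exact hw0
      · exact hw i
    · exact fun i j k => h i j k
  have hrat : ∀ P : (Fin n → L) × L, (∀ j, P.1 j ∉ T j) → ∀ i j k,
      (((N j k).map φ).map (σ i)).eval ((image (σ i) P).1 j) ≠ 0 := by
    intro P hPT i j k
    change (((N j k).map φ).map (σ i)).eval (σ i (P.1 j)) ≠ 0
    rw [eval_map_apply]
    exact (map_ne_zero (σ i)).2 (hTN j k _ (hPT j))
  refine ⟨main, fun P hP hw hPT => ?_, fun τ => ⟨mainR τ, fun P hP hw hPT => ?_⟩⟩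
  · exact main _ (subset_closure ⟨P, hP, rfl⟩) (fun i => (map_ne_zero (σ i)).2 hw) (hrat P hPT)
  · exact mainR τ _ (subset_closure ⟨P, hP, rfl⟩) ((map_ne_zero τ).2 hw)
      (fun i => (map_ne_zero (σ i)).2 hw) (hrat P hPT)

end Pool.Agent.Results.MP_ed3816_nt.KummerOpenClosure
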