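import Pool.Agent.X292.CY.Gen
import Pool.Agent.X296.Sqf.Main
import Pool.Agent.X296.Koc.Ext

/-!
# The closure of the rational points of K3 surfaces and Calabi-Yau varieties `w² = f(x₁, …, x_n)` is
open outside countably many divisors

`K` is a field of characteristic zero, for example a number field, and `f ∈ K[x₁, …, x_n]`, `n ≥ 2`,
is a squarefree polynomial of degree three or four in each variable such that for any two variables
some irreducible factor of `f` depends on both. The variety `X : w² = f(x₁, …, x_n)` is a double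
cover of `(ℙ¹)ⁿ` branched along a reduced divisor of multidegree `(4, …, 4)`: a K3 surface for
`n = 2` and a Calabi-Yau variety of dimension `n` if the singularities of the divisor are mild.

For `n = 2` the condition on the factors excludes only the Kummer surfaces `w² = g(x₁) h(x₂)`, which
are treated in `KummerOpenClosure`. Examples with reducible `f` are the K3 surfaces
`w² = ∏ᵢ (aᵢ(t) x - bᵢ(t))`, `i ≤ 4`, with linear polynomials `aᵢ`, `bᵢ`, and the K3 surfaces
`w³ = (s² - d₁) (t² - d₂)`, which are birational to `u² = (t² - d₂) (w³ + d₁ (t² - d₂))`.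

If `X` is a K3 surface then `Br X / Br K` is finite, and the conjecture of Skorobogatov implies that
for every finite set of places the closure of `X(K)` in the product of the `X(K_v)` is open. We
consider finite nonempty sets of `p`-adic places of degree one (embeddings of `K` into `ℚ_p`) over
different primes `p`, with or without a real place; for `K = ℚ` these are all the finite sets of
places which contain a finite place.

**Theorem.** There are a divisor `N₀(x) = 0` and, for each `j`, countably many divisors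
`N_{j,k}(x) = 0` over `K`, such that for all extensions `L` of `K` and for every such set of places
of `L` the closure of `X(L)` in the product of the `X(L_v)` is a neighbourhood of each of its points
`T = (T_v)` with `N₀(T_v) ≠ 0` for all `v`, and with `N_{j,k}(T_v) ≠ 0` for some `j`, all `k` and
all `p`-adic `v`.

So for one `p`-adic place the closure is open outside `N₀ = 0` and outside a countable union of
subvarieties of codimension two.

The case of irreducible `f` is due to helper292 (module `Pool.Agent.X292.CY.Gen`). In the general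
case one needs that `f` is squarefree over the field of fractions of the polynomial ring in the
other variables, and that `∂ᵢ∂ⱼ log f ≠ 0` for `i ≠ j`, see `Pool.Agent.X296.Sqf.Main`.

Idea of the proof. The fibre of `X` through `T_v` in the direction of `x_j` is a curve of genus one
`w² = f(x + t e_j)`, and the difference of the two points over `x` is a point `D_j(T_v)` of its
Jacobian. If it has infinite order at all `p`-adic `v`, its multiples accumulate at the origin,
and the same multiples of the corresponding points for the rational curves close to the given ones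
generate neighbourhoods of the origin of a size which does not depend on the curve. So one can move
from the rational points near `T` in the direction of `x_j`, and then in the other directions,
because the difference has infinite order at local points near `T_v` in the fibre. The divisors
`N_{j,k}` are those at which `(k + 1) D_j = 0`; they are computed by the addition formulas over
`ℤ[w, q₁, …, q₄]`, where the `q_i` are the coefficients of `f(x + t e_j)`, and reduced modulo
`w² - f`.
-/

set_option autoImplicit false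

namespace Pool.Agent.Results.MP_ed3816_nt.SquarefreeOpenClosure

open MvPolynomial Pool.Agent.Y720.MZ

/-- The point `(x, w)` lies on the double cover `w² = f(x)`. -/
def OnCover {F : Type} [Field F] {n : ℕ} (f : MvPolynomial (Fin n) F) (P : (Fin n → F) × F) :
    Prop :=
  P.2 ^ 2 = eval P.1 f

/-- The image of a point under an embedding of fields. -/
def image {K F : Type} [Field K] [Field F] (φ : K →+* F) {n : ℕ} (P : (Fin n → K) × K) :
    (Fin n → F) × F :=
  (fun j => φ (P.1 j), φ P.2)

/-- The closure of the `K`-points in the product of the sets of the `ℚ_[p i]`-points. -/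
def Closure {K : Type} [Field K] {n : ℕ} (f : MvPolynomial (Fin n) K) {ι : Type} {p : ι → ℕ}
    [∀ i, Fact (p i).Prime] (σ : ∀ i, K →+* ℚ_[p i]) : Set (∀ i, (Fin n → ℚ_[p i]) × ℚ_[p i]) :=
  closure {S | ∃ P, OnCover f P ∧ S = fun i => image (σ i) P}

/-- The closure of the `K`-points in the product of the set of the real points and of the sets of
the `ℚ_[p i]`-points. -/
def ClosureReal {K : Type} [Field K] {n : ℕ} (f : MvPolynomial (Fin n) K) {ι : Type} {p : ι → ℕ}
    [∀ i, Fact (p i).Prime] (σ : ∀ i, K →+* ℚ_[p i]) (τ : K →+* ℝ) :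
    Set (((Fin n → ℝ) × ℝ) × ∀ i, (Fin n → ℚ_[p i]) × ℚ_[p i]) :=
  closure {S | ∃ P, OnCover f P ∧ S = (image τ P, fun i => image (σ i) P)}

section aux

variable {K : Type} [Field K] [CharZero K] {n : ℕ} {f : MvPolynomial (Fin n) K}

omit [CharZero K] in
lemma dist_image {F : Type} [NormedField F] (φ : K →+* F) (P : (Fin n → K) × K)
    (T : (Fin n → F) × F) {η : ℝ} (hη : 0 < η) : dist T (image φ P) < η ↔
      (∀ j, ‖φ (P.1 j) - T.1 j‖ < η) ∧ ‖φ P.2 - T.2‖ < η := by
  rw [dist_comm, Prod.dist_eq, max_lt_iff, dist_pi_lt_iff hη]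
  simp only [dist_eq_norm, image]

variable {ι : Type} [Finite ι] {p : ι → ℕ} [hp : ∀ i, Fact (p i).Prime]

omit [CharZero K] in
lemma fill_p (σ : ∀ i, K →+* ℚ_[p i]) {T : ∀ i, (Fin n → ℚ_[p i]) × ℚ_[p i]}
    (hcl : T ∈ Closure f σ) (hI : IntL σ f (fun i => (T i).1) (fun i => (T i).2)) :
    ∃ U ∈ nhds T, ∀ S ∈ U, (∀ i, OnCover (map (σ i) f) (S i)) → S ∈ Closure f σ := by
  have : Fintype ι := Fintype.ofFinite ι
  obtain ⟨ε, hε, hint⟩ := hI
  obtain ⟨_, ⟨P, hP, rfl⟩, h2⟩ := Metric.mem_closure_iff.1 hcl ε hε
  rw [dist_pi_lt_iff hε] at h2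
  refine ⟨Metric.ball T ε, Metric.ball_mem_nhds T hε, fun S hS hSX => ?_⟩
  rw [Metric.mem_ball, dist_pi_lt_iff hε] at hS
  rw [Closure, Metric.mem_closure_iff]
  intro η hη
  obtain ⟨z, w, k1, k2⟩ := hint P.1 P.2 hP (fun i => (dist_image (σ i) P (T i) hε).1 (h2 i))
    (fun i => (S i).1) (fun i => (S i).2) hSX (fun i => by
      have h3 := hS i
      rw [Prod.dist_eq, max_lt_iff, dist_pi_lt_iff hε] at h3
      simp only [dist_eq_norm] at h3
      exact h3) η hη
  refine ⟨_, ⟨(z, w), k1, rfl⟩, ?_⟩
  rw [dist_pi_lt_iff hη]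
  exact fun i => (dist_image (σ i) (z, w) (S i) hη).2 (k2 i)

omit [CharZero K] in
lemma fill_r (σ : ∀ i, K →+* ℚ_[p i]) (τ : K →+* ℝ)
    {T : ((Fin n → ℝ) × ℝ) × ∀ i, (Fin n → ℚ_[p i]) × ℚ_[p i]}
    (hcl : T ∈ ClosureReal f σ τ) {x : ∀ v : Option ι, Fin n → Lv p v} {y : ∀ v : Option ι, Lv p v}
    (hx0 : x none = T.1.1) (hy0 : y none = T.1.2) (hx : ∀ i, x (some i) = (T.2 i).1)
    (hy : ∀ i, y (some i) = (T.2 i).2)
    (hI : IntL (sv σ τ) f x y) :
    ∃ U ∈ nhds T, ∀ S ∈ U, OnCover (map τ f) S.1 → (∀ i, OnCover (map (σ i) f) (S.2 i)) →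
      S ∈ ClosureReal f σ τ := by
  have : Fintype ι := Fintype.ofFinite ι
  obtain ⟨ε, hε, hint⟩ := hI
  obtain ⟨_, ⟨P, hP, rfl⟩, h2⟩ := Metric.mem_closure_iff.1 hcl ε hε
  rw [Prod.dist_eq, max_lt_iff, dist_pi_lt_iff hε] at h2
  refine ⟨Metric.ball T ε, Metric.ball_mem_nhds T hε, fun S hS hSr hSX => ?_⟩
  rw [Metric.mem_ball, Prod.dist_eq, max_lt_iff, dist_pi_lt_iff hε] at hS
  rw [ClosureReal, Metric.mem_closure_iff]
  intro η hη
  let x' : ∀ v : Option ι, Fin n → Lv p v := fun v =>
    match v with
    | none => S.1.1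
    | some i => (S.2 i).1
  let y' : ∀ v : Option ι, Lv p v := fun v =>
    match v with
    | none => S.1.2
    | some i => (S.2 i).2
  obtain ⟨z, w, k1, k2⟩ := hint P.1 P.2 hP
    (by
      rintro (_ | i)
      · rw [hx0, hy0]
        exact (dist_image τ P T.1 hε).1 h2.1
      · rw [hx, hy]
        exact (dist_image (σ i) P (T.2 i) hε).1 (h2.2 i))
    x' y'
    (by
      rintro (_ | i)
      · exact hSr
      · exact hSX i)
    (by
      rintro (_ | i)
      · have h3 := hS.1
        rw [Prod.dist_eq, max_lt_iff, dist_pi_lt_iff hε] at h3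
        simp only [dist_eq_norm] at h3
        rw [hx0, hy0]
        exact h3
      · have h3 := hS.2 i
        rw [Prod.dist_eq, max_lt_iff, dist_pi_lt_iff hε] at h3
        simp only [dist_eq_norm] at h3
        rw [hx, hy]
        exact h3) η hη
  refine ⟨_, ⟨(z, w), k1, rfl⟩, ?_⟩
  rw [Prod.dist_eq, max_lt_iff, dist_pi_lt_iff hη]
  exact ⟨(dist_image τ (z, w) S.1 hη).2 (k2 none),
    fun i => (dist_image (σ i) (z, w) (S.2 i) hη).2 (k2 (some i))⟩

end aux

section closed

variable {K : Type} [Field K] {n : ℕ} {f : MvPolynomial (Fin n) K} {ι : Type} {p : ι → ℕ}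
  [∀ i, Fact (p i).Prime]

lemma onCover_image {F : Type} [Field F] (φ : K →+* F) {P : (Fin n → K) × K} (h : OnCover f P) :
    OnCover (map φ f) (image φ P) := by
  have k1 : eval (image φ P).1 (map φ f) = φ (eval P.1 f) := by
    rw [eval_map, image]
    exact (eval₂_comp_left φ (RingHom.id K) P.1 f).symm ▸ rfl
  unfold OnCover at *
  rw [k1, ← h, map_pow]
  rfl

lemma isClosed_onCover {F : Type} [NormedField F] (g : MvPolynomial (Fin n) F) :
    IsClosed {P : (Fin n → F) × F | OnCover g P} :=
  isClosed_eq (by fun_prop) ((MvPolynomial.continuous_eval g).comp continuous_fst)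

lemma on_of_closure {σ : ∀ i, K →+* ℚ_[p i]} {T : ∀ i, (Fin n → ℚ_[p i]) × ℚ_[p i]}
    (hT : T ∈ Closure f σ) (i : ι) : OnCover (map (σ i) f) (T i) := by
  have h1 : IsClosed {T : ∀ i, (Fin n → ℚ_[p i]) × ℚ_[p i] | OnCover (map (σ i) f) (T i)} :=
    (isClosed_onCover (map (σ i) f)).preimage
      (f := fun T : ∀ i, (Fin n → ℚ_[p i]) × ℚ_[p i] => T i) (continuous_apply i)
  refine closure_minimal ?_ h1 hT
  rintro _ ⟨P, hP, rfl⟩
  exact onCover_image (σ i) hP

lemma on_of_closureR {σ : ∀ i, K →+* ℚ_[p i]} {τ : K →+* ℝ}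
    {T : ((Fin n → ℝ) × ℝ) × ∀ i, (Fin n → ℚ_[p i]) × ℚ_[p i]}
    (hT : T ∈ ClosureReal f σ τ) : OnCover (map τ f) T.1 ∧ ∀ i, OnCover (map (σ i) f) (T.2 i) := by
  constructor
  · have h1 : IsClosed {T : ((Fin n → ℝ) × ℝ) × ∀ i, (Fin n → ℚ_[p i]) × ℚ_[p i] |
        OnCover (map τ f) T.1} := (isClosed_onCover (map τ f)).preimage continuous_fst
    refine closure_minimal ?_ h1 hT
    rintro _ ⟨P, hP, rfl⟩
    exact onCover_image τ hP
  · intro i
    have h1 : IsClosed {T : ((Fin n → ℝ) × ℝ) × ∀ i, (Fin n → ℚ_[p i]) × ℚ_[p i] |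
        OnCover (map (σ i) f) (T.2 i)} :=
      (isClosed_onCover (map (σ i) f)).preimage
        (f := fun T : ((Fin n → ℝ) × ℝ) × ∀ i, (Fin n → ℚ_[p i]) × ℚ_[p i] => T.2 i)
        ((continuous_apply i).comp continuous_snd)
    refine closure_minimal ?_ h1 hT
    rintro _ ⟨P, hP, rfl⟩
    exact onCover_image (σ i) hP

end closed

/-- **The closure of the rational points is open outside countably many divisors, which do not
depend on the field.** -/
theorem result :
    ∀ (K : Type) [Field K] [CharZero K] (n : ℕ), 2 ≤ n → ∀ f : MvPolynomial (Fin n) K,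
      -- `f` is squarefree, of degree three or four in each variable
      Squarefree f → (∀ j, 3 ≤ f.degreeOf j ∧ f.degreeOf j ≤ 4) →
      -- for any two variables some irreducible factor of `f` depends on both
      (∀ i j, i ≠ j → ∃ p, Irreducible p ∧ p ∣ f ∧ p.degreeOf i ≠ 0 ∧ p.degreeOf j ≠ 0) →
      -- there are a divisor and, for each variable, countably many divisors of the base
      ∃ (N₀ : MvPolynomial (Fin n) K) (N : Fin n → ℕ → MvPolynomial (Fin n) K),
        N₀ ≠ 0 ∧ (∀ j k, N j k ≠ 0) ∧
        -- such that for all extensions `L` of `K`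
        ∀ (L : Type) [Field L] (φ : K →+* L),
        -- and all finite nonempty sets of `p`-adic places of `L`
        ∀ (ι : Type) [Finite ι] [Nonempty ι] (p : ι → ℕ) [∀ i, Fact (p i).Prime],
          Function.Injective p → ∀ σ : ∀ i, L →+* ℚ_[p i],
            -- the closure of the `L`-rational points is a neighbourhood of its points outside
            -- these divisors
            (∀ T ∈ Closure (map φ f) σ,
              (∀ i, eval (T i).1 (map ((σ i).comp φ) N₀) ≠ 0) →
              (∃ j, ∀ i k, eval (T i).1 (map ((σ i).comp φ) (N j k)) ≠ 0) →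
              ∃ U ∈ nhds T, ∀ S ∈ U, (∀ i, OnCover (map ((σ i).comp φ) f) (S i)) →
                S ∈ Closure (map φ f) σ) ∧
            -- and the same with a real place
            ∀ τ : L →+* ℝ, ∀ T ∈ ClosureReal (map φ f) σ τ,
              eval T.1.1 (map (τ.comp φ) N₀) ≠ 0 →
              (∀ i, eval (T.2 i).1 (map ((σ i).comp φ) N₀) ≠ 0) →
              (∃ j, ∀ i k, eval (T.2 i).1 (map ((σ i).comp φ) (N j k)) ≠ 0) →
              ∃ U ∈ nhds T, ∀ S ∈ U, OnCover (map (τ.comp φ) f) S.1 →
                (∀ i, OnCover (map ((σ i).comp φ) f) (S.2 i)) →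
                S ∈ ClosureReal (map φ f) σ τ := by
  intro K _ _ n hn f hf hdeg hij
  have hnt : Nontrivial (Fin n) := Fin.nontrivial_iff_two_le.2 hn
  have hd0 : ∀ j, f.degreeOf j ≤ 4 := fun j => (hdeg j).2
  have hN0 : NK f ≠ 0 := Pool.Agent.X296.Sqf.NK_ne_sqf hf hdeg hij
  by_cases hK : Nonempty (K →+* ℂ)
  · choose N hN1 hN2 using fun j => Pool.Agent.X292.CY.torsion_divisors hd0 hN0 hK j
    refine ⟨NK f, N, hN0, hN1, ?_⟩
    intro L _ φ ι _ _ p _ hinj σ
    have hcL : CharZero L := charZero_of_injective_ringHom φ.injective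
    have hd : ∀ j, (map φ f).degreeOf j ≤ 4 := fun j => degreeOf_map_le φ (hd0 j)
    simp only [← map_map, Pool.Agent.X296.Koc.NK_map φ f]
    have key : ∀ (i : ι) (P : (Fin n → ℚ_[p i]) × ℚ_[p i]), OnCover (map (σ i) (map φ f)) P →
        eval P.1 (map (σ i) (NK (map φ f))) ≠ 0 → ∀ j,
        (∀ k, eval P.1 (map (σ i) (map φ (N j k))) ≠ 0) →
        IOt (th (map (σ i) (map φ f)) (Pi.single j 1) P.1 P.2) := by
      intro i P hP h0 j hj
      have h1 := NK_spec hd (σ i) h0
      have hw : P.2 ≠ 0 := by
        intro hw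
        apply h1.1
        rw [← (show P.2 ^ 2 = _ from hP), hw]
        ring
      have h2 := h1.2.1 j
      rw [OnCover] at hP
      simp only [map_map] at hP h2 hj ⊢
      exact hN2 j _ ((σ i).comp φ) P.1 P.2 hP hw h2 hj
    refine ⟨fun T hT h0 hj => ?_, fun τ T hT h0 h0' hj => ?_⟩
    · obtain ⟨j, hj⟩ := hj
      have hon := on_of_closure hT
      exact fill_p σ hT (cy_p hinj σ hd hon h0 (a := j)
        fun i => key i (T i) (hon i) (h0 i) j (hj i))
    · obtain ⟨j, hj⟩ := hj
      obtain ⟨hon1, hon2⟩ := on_of_closureR hT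
      let x : ∀ v : Option ι, Fin n → Lv p v := fun v =>
        match v with
        | none => T.1.1
        | some i => (T.2 i).1
      let y : ∀ v : Option ι, Lv p v := fun v =>
        match v with
        | none => T.1.2
        | some i => (T.2 i).2
      refine fill_r σ τ hT (x := x) (y := y) rfl rfl (fun _ => rfl) (fun _ => rfl) ?_
      refine cy_r hinj σ τ hd ?_ ?_ (a := j) ?_
      · rintro (_ | i)
        · exact hon1
        · exact hon2 i
      · rintro (_ | i)
        · exact h0
        · exact h0' i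
      · exact fun i => key i (T.2 i) (hon2 i) (h0' i) j (hj i)
  · refine ⟨1, fun _ _ => 1, one_ne_zero, fun _ _ => one_ne_zero, ?_⟩
    intro L _ φ ι _ hne p _ hinj σ
    obtain ⟨i⟩ := hne
    obtain ⟨e⟩ := Pool.Agent.Y447.CL.emb (p i)
    exact absurd ⟨(e.comp (σ i)).comp φ⟩ hK

end Pool.Agent.Results.MP_ed3816_nt.SquarefreeOpenClosure
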